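import Pool.Agent.V11147.PatD

/-! # The value set of `A_v(0, d)` for every pattern `v`

`true` stands for the digit `1`, `false` for the digit `0`; words are written with the most
significant digit first. -/

namespace Pool.Agent.Results.MP_956764_co.ValueSetAtZero

open Pool.Agent.V11147.Pat

/-- Binary expansion without leading zeros, most significant digit first (`0` has the empty
expansion).  `Nat.bits` lists the binary digits starting with the least significant one. -/
def expansion (n : ℕ) : List Bool := (Nat.bits n).reverse

/-- Number of zeros at the beginning of a word. -/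
def leadingZeros (v : List Bool) : ℕ := (v.takeWhile (fun b => !b)).length

/-- Number of zeros at the end of a word. -/
def trailingZeros (v : List Bool) : ℕ := leadingZeros v.reverse

/-- The word in which occurrences of `v` are counted: if `v` contains a `1` and begins with exactly
`i` zeros, then `i` zeros are prepended to the expansion of `n`. -/
def reading (v : List Bool) (n : ℕ) : List Bool :=
  if true ∈ v then List.replicate (leadingZeros v) false ++ expansion n else expansion n

/-- Number of (possibly overlapping) occurrences of `v` as a block of consecutive letters of `u`: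
the number of end segments of `u` that begin with `v`. -/
def occ (v u : List Bool) : ℕ := (u.tails.filter (fun t => v.isPrefixOf t)).length

/-- The pattern counting function `e_v`. -/
def e (v : List Bool) (n : ℕ) : ℕ := occ v (reading v n)

/-- `A_v(n, d)`, with values in the extended natural numbers. -/
noncomputable def A (v : List Bool) (n d : ℕ) : ℕ∞ :=
  sInf {x : ℕ∞ | ∃ l : ℕ, 1 ≤ l ∧ e v (n + l * d) % 2 ≠ e v n % 2 ∧ x = (l : ℕ∞)}

/-- The explicit value set. -/
def valueSet (v : List Bool) : Set ℕ :=
  if true ∈ v then
    {l | Odd l ∨ ∃ q o : ℕ, 1 ≤ q ∧ q ≤ trailingZeros v ∧ Odd o ∧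
      o < 2 ^ (v.length - trailingZeros v) ∧ l = 2 ^ q * o}
  else {l | (Odd l ∧ l < 2 ^ v.length) ∨ ∃ q : ℕ, 1 ≤ q ∧ q ≤ v.length ∧ l = 2 ^ q}

/-! ### occurrences -/

theorem occ_cons (v : List Bool) (x : Bool) (u : List Bool) :
    occ v (x :: u) = (if v <+: x :: u then 1 else 0) + occ v u := by
  unfold occ
  rw [List.tails_cons, List.filter_cons]
  by_cases h : v <+: x :: u
  · have h' : v.isPrefixOf (x :: u) = true := List.isPrefixOf_iff_prefix.2 h
    rw [if_pos h', if_pos h, List.length_cons, add_comm]
  · have h' : ¬ v.isPrefixOf (x :: u) = true := fun hc => h (List.isPrefixOf_iff_prefix.1 hc)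
    rw [if_neg h', if_neg h, zero_add]

theorem occ_nil {v : List Bool} (hv : v ≠ []) : occ v [] = 0 := by
  unfold occ
  cases v with
  | nil => exact absurd rfl hv
  | cons a t => simp

theorem occ_short {v : List Bool} : ∀ {u : List Bool}, u.length < v.length → occ v u = 0 := by
  intro u
  induction u with
  | nil =>
    intro h
    apply occ_nil
    rintro rfl
    simp at h
  | cons x u ih =>
    intro h
    rw [occ_cons, ih (by simp only [List.length_cons] at h; omega), if_neg]
    intro hp
    have := hp.length_le
    omega

theorem occ_snoc {v : List Bool} (hv : v ≠ []) (b : Bool) (u : List Bool) :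
    occ v (u ++ [b]) = occ v u + (if v <:+ u ++ [b] then 1 else 0) := by
  induction u with
  | nil =>
    rw [List.nil_append, occ_cons, occ_nil hv]
    have : (v <+: [b]) ↔ (v <:+ [b]) := by
      rw [List.prefix_iff_eq_take, List.suffix_iff_eq_drop]
      cases v with
      | nil => exact absurd rfl hv
      | cons a t =>
        cases t with
        | nil => simp
        | cons c t =>
          simp
    simp only [this]
    omega
  | cons x u ih =>
    rw [List.cons_append, occ_cons, ih, occ_cons]
    have h1 : (v <+: x :: (u ++ [b])) ↔ (v <+: x :: u ∨ v = x :: (u ++ [b])) := by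
      have : x :: (u ++ [b]) = (x :: u) ++ [b] := rfl
      rw [this, List.prefix_concat_iff]
      constructor
      · rintro (h | h)
        · exact Or.inr h
        · exact Or.inl h
      · rintro (h | h)
        · exact Or.inr h
        · exact Or.inl h
    have h2 : (v <:+ x :: (u ++ [b])) ↔ (v = x :: (u ++ [b]) ∨ v <:+ u ++ [b]) :=
      List.suffix_cons_iff
    by_cases h3 : v = x :: (u ++ [b])
    · have n1 : ¬ v <+: x :: u := by
        intro h; have := h.length_le; rw [h3] at this; simp at this
      have n2 : ¬ v <:+ u ++ [b] := by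
        intro h; have := h.length_le; rw [h3] at this; simp at this
      rw [if_pos (h1.2 (Or.inr h3)), if_neg n2, if_neg n1, if_pos (h2.2 (Or.inl h3))]
      omega
    · by_cases h4 : v <+: x :: u
      · by_cases h5 : v <:+ u ++ [b]
        · rw [if_pos (h1.2 (Or.inl h4)), if_pos h5, if_pos h4, if_pos (h2.2 (Or.inr h5))]
          omega
        · rw [if_pos (h1.2 (Or.inl h4)), if_neg h5, if_pos h4, if_neg (by rw [h2]; tauto)]
          omega
      · by_cases h5 : v <:+ u ++ [b]
        · rw [if_neg (by rw [h1]; tauto), if_pos h5, if_neg h4, if_pos (h2.2 (Or.inr h5))]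
          omega
        · rw [if_neg (by rw [h1]; tauto), if_neg h5, if_neg h4, if_neg (by rw [h2]; tauto)]
          omega

/-! ### values of words (least significant digit first) -/

/-- value, least significant digit first -/
def lv : List Bool → ℕ
  | [] => 0
  | b :: t => b.toNat + 2 * lv t

theorem bits_ne {n : ℕ} (h : n ≠ 0) : Nat.bits n = decide (n % 2 = 1) :: Nat.bits (n / 2) := by
  rcases Nat.even_or_odd' n with ⟨m, hm | hm⟩
  · have h1 : m ≠ 0 := by omega
    have h2 : n / 2 = m := by omega
    have h3 : decide (n % 2 = 1) = false := by simp; omega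
    rw [h2, h3, hm]
    exact Nat.bit0_bits m h1
  · have h2 : n / 2 = m := by omega
    have h3 : decide (n % 2 = 1) = true := by simp; omega
    rw [h2, h3, hm]
    exact Nat.bit1_bits m

theorem lt_bits (n : ℕ) : n < 2 ^ (Nat.bits n).length := by
  induction n using Nat.strong_induction_on with
  | _ n ih =>
    by_cases h : n = 0
    · subst h; simp
    · rw [bits_ne h, List.length_cons, pow_succ]
      have := ih (n / 2) (by omega)
      omega

theorem mod_step (n r : ℕ) : n % 2 ^ (r + 1) = n % 2 + 2 * (n / 2 % 2 ^ r) := by
  rw [pow_succ, mul_comm, Nat.mod_mul]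

theorem P1 (ρ : List Bool) : ∀ n m : ℕ, ρ <+: Nat.bits n ++ List.replicate m false →
    n % 2 ^ ρ.length = lv ρ := by
  induction ρ with
  | nil => intro n m _; simp [lv, Nat.mod_one]
  | cons b ρ ih =>
    intro n m h
    by_cases hn : n = 0
    · subst hn
      cases m with
      | zero => simp at h
      | succ m =>
        rw [Nat.zero_bits, List.nil_append, List.replicate_succ, List.cons_prefix_cons] at h
        have := ih 0 m (by simpa using h.2)
        rw [Nat.zero_mod] at this
        rw [Nat.zero_mod, lv, ← this, h.1]; rfl
    · rw [bits_ne hn, List.cons_append, List.cons_prefix_cons] at h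
      have := ih (n / 2) m h.2
      rw [List.length_cons, mod_step, this, lv, h.1]
      have : n % 2 = 0 ∨ n % 2 = 1 := by omega
      rcases this with h | h <;> simp [h]

theorem P2 (ρ : List Bool) : ∀ n m : ℕ, n % 2 ^ ρ.length = lv ρ →
    ρ.length ≤ (Nat.bits n).length + m → ρ <+: Nat.bits n ++ List.replicate m false := by
  induction ρ with
  | nil => intro n m _ _; exact List.nil_prefix
  | cons b ρ ih =>
    intro n m h hlen
    by_cases hn : n = 0
    · subst hn
      rw [Nat.zero_mod, lv] at h
      have hb : b = false := by
        cases b with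
        | false => rfl
        | true => simp only [Bool.toNat_true] at h; omega
      have hl : lv ρ = 0 := by omega
      cases m with
      | zero => simp at hlen
      | succ m =>
        rw [Nat.zero_bits, List.nil_append, List.replicate_succ, List.cons_prefix_cons]
        refine ⟨hb, ?_⟩
        have := ih 0 m (by rw [Nat.zero_mod, hl]) (by simp at hlen ⊢; omega)
        simpa using this
    · rw [List.length_cons, mod_step, lv] at h
      rw [bits_ne hn, List.cons_append, List.cons_prefix_cons]
      have hb2 : b.toNat ≤ 1 := Bool.toNat_le b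
      refine ⟨?_, ih (n / 2) m (by omega) (by
        rw [bits_ne hn] at hlen
        simp only [List.length_cons] at hlen
        omega)⟩
      have h1 : n % 2 = b.toNat := by omega
      cases b with
      | false => simp at h1 ⊢; omega
      | true => simp at h1 ⊢; omega

theorem lv_lt (ρ : List Bool) : lv ρ < 2 ^ ρ.length := by
  induction ρ with
  | nil => simp [lv]
  | cons b ρ ih =>
    rw [lv, List.length_cons, pow_succ]
    have := Bool.toNat_le b
    omega

theorem lv_zero {ρ : List Bool} (h : true ∉ ρ) : lv ρ = 0 := by
  induction ρ with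
  | nil => rfl
  | cons b ρ ih =>
    rw [List.mem_cons] at h
    push Not at h
    have hb : b = false := by
      cases b with
      | false => rfl
      | true => exact absurd rfl h.1
    rw [lv, ih h.2, hb]; rfl

theorem lv_trailing {ρ : List Bool} (h : true ∈ ρ) :
    ∃ V', Odd V' ∧ lv ρ = 2 ^ leadingZeros ρ * V' := by
  induction ρ with
  | nil => simp at h
  | cons b ρ ih =>
    cases b with
    | true =>
      refine ⟨1 + 2 * lv ρ, ?_, ?_⟩
      · rw [add_comm]; exact ⟨lv ρ, rfl⟩
      · simp [leadingZeros, lv]
    | false =>
      have h' : true ∈ ρ := by simpa using h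
      obtain ⟨V', h1, h2⟩ := ih h'
      refine ⟨V', h1, ?_⟩
      have : leadingZeros (false :: ρ) = leadingZeros ρ + 1 := by
        simp [leadingZeros]
      rw [this, lv, h2, pow_succ]
      simp only [Bool.toNat_false]
      ring

/-- lower bound for the value: the first digit `1` of `v` -/
theorem lv_append (ρ σ : List Bool) : lv (ρ ++ σ) = lv ρ + 2 ^ ρ.length * lv σ := by
  induction ρ with
  | nil => simp [lv]
  | cons b ρ ih =>
    rw [List.cons_append, lv, ih, lv, List.length_cons, pow_succ]; ring

theorem lv_ge {v : List Bool} (h : true ∈ v) :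
    leadingZeros v < v.length ∧ 2 ^ (v.length - leadingZeros v - 1) ≤ lv v.reverse := by
  induction v with
  | nil => simp at h
  | cons b v ih =>
    cases b with
    | true =>
      have h0 : leadingZeros (true :: v) = 0 := by simp [leadingZeros]
      rw [h0]
      refine ⟨by simp, ?_⟩
      rw [List.reverse_cons, lv_append]
      simp [lv]
    | false =>
      have h' : true ∈ v := by simpa using h
      obtain ⟨h1, h2⟩ := ih h'
      have h0 : leadingZeros (false :: v) = leadingZeros v + 1 := by
        simp [leadingZeros]
      rw [h0, List.length_cons]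
      refine ⟨by omega, ?_⟩
      rw [List.reverse_cons, lv_append]
      have : v.length + 1 - (leadingZeros v + 1) - 1 = v.length - leadingZeros v - 1 := by omega
      rw [this]
      omega

/-! ### the recursion -/

theorem reading_succ (v : List Bool) {n : ℕ} (h : n ≠ 0) :
    reading v n = reading v (n / 2) ++ [decide (n % 2 = 1)] := by
  unfold reading expansion
  rw [bits_ne h, List.reverse_cons]
  split_ifs
  · rw [List.append_assoc]
  · rfl

theorem suffix_iff {v : List Bool} {n : ℕ} (hn : n ≠ 0) :
    (v <:+ reading v n) ↔ n % 2 ^ v.length = lv v.reverse := by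
  rw [← List.reverse_prefix]
  have hlen : v.reverse.length = v.length := List.length_reverse
  by_cases hv : true ∈ v
  · have hr : (reading v n).reverse = Nat.bits n ++ List.replicate (leadingZeros v) false := by
      unfold reading expansion
      rw [if_pos hv, List.reverse_append, List.reverse_reverse, List.reverse_replicate]
    rw [hr]
    constructor
    · intro h
      have := P1 _ _ _ h
      rwa [hlen] at this
    · intro h
      apply P2
      · rw [hlen]; exact h
      · rw [hlen]
        obtain ⟨h1, h2⟩ := lv_ge hv
        have h3 : n % 2 ^ v.length ≤ n := Nat.mod_le _ _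
        have h4 := lt_bits n
        have h5 : 2 ^ (v.length - leadingZeros v - 1) < 2 ^ (Nat.bits n).length := by omega
        have h6 := (Nat.pow_lt_pow_iff_right (by norm_num : 1 < 2)).1 h5
        omega
  · have hr : (reading v n).reverse = Nat.bits n ++ List.replicate 0 false := by
      unfold reading expansion
      rw [if_neg hv, List.reverse_reverse]; simp
    rw [hr]
    constructor
    · intro h
      have := P1 _ _ _ h
      rwa [hlen] at this
    · intro h
      apply P2
      · rw [hlen]; exact h
      · rw [hlen]
        have h0 : lv v.reverse = 0 := lv_zero (by simpa using hv)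
        rw [h0] at h
        have h3 : 2 ^ v.length ≤ n := Nat.le_of_dvd (by omega) (Nat.dvd_of_mod_eq_zero h)
        have h4 := lt_bits n
        have h5 : 2 ^ v.length < 2 ^ (Nat.bits n).length := by omega
        have h6 := (Nat.pow_lt_pow_iff_right (by norm_num : 1 < 2)).1 h5
        omega

theorem e_eq_cnt {v : List Bool} (hv : v ≠ []) (n : ℕ) :
    e v n = cnt v.length (lv v.reverse) n := by
  induction n using Nat.strong_induction_on with
  | _ n ih =>
    by_cases h : n = 0
    · subst h
      rw [cnt_zero]
      unfold e
      apply occ_short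
      have hpos : 0 < v.length := List.length_pos_of_ne_nil hv
      unfold reading expansion
      split_ifs with ht
      · simpa using (lv_ge ht).1
      · simpa using hpos
    · rw [cnt_eq h]
      unfold e at ih ⊢
      rw [reading_succ v h, occ_snoc hv, ← reading_succ v h, ih _ (by omega)]
      simp only [suffix_iff h]
      ring

theorem A_eq {v : List Bool} (hv : v ≠ []) {d l : ℕ}
    (h : IsA (cnt v.length (lv v.reverse)) d l) : A v 0 d = l := by
  have he : e v = cnt v.length (lv v.reverse) := funext (e_eq_cnt hv)
  unfold A
  rw [he, cnt_zero]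
  apply le_antisymm
  · apply sInf_le
    refine ⟨l, h.1, ?_, rfl⟩
    rw [zero_add, h.2.1]; norm_num
  · apply le_sInf
    rintro x ⟨j, hj1, hj2, rfl⟩
    rw [zero_add] at hj2
    by_contra hcon
    have hlt : j < l := by
      have := not_le.1 hcon
      exact_mod_cast this
    have := h.2.2 j hj1 hlt
    omega

/-- For every pattern `v` the set of values of `A_v(0, d)`, `d ≥ 1`, is the set `valueSet v`:
if `v` contains a `1` and ends in exactly `i` zeros it consists of all positive odd integers and
of the integers `2 ^ q * o` with `1 ≤ q ≤ i` and `o` odd, `o < 2 ^ (|v| - i)`; if `v` consists of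
`k` zeros it consists of the odd integers below `2 ^ k` and of `2, 4, …, 2 ^ k`. -/
theorem result (v : List Bool) (hv : v ≠ []) :
    {x : ℕ∞ | ∃ d : ℕ, 1 ≤ d ∧ A v 0 d = x} = {x : ℕ∞ | ∃ l ∈ valueSet v, x = (l : ℕ∞)} := by
  have hk : 1 ≤ v.length := List.length_pos_of_ne_nil hv
  by_cases ht : true ∈ v
  · have ht' : true ∈ v.reverse := by simpa using ht
    obtain ⟨V', hVo, hVi⟩ := lv_trailing ht'
    have hV : 0 < lv v.reverse := by
      rw [hVi]; have := hVo.pos; positivity
    have hV' : lv v.reverse < 2 ^ v.length := by
      have := lv_lt v.reverse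
      rwa [List.length_reverse] at this
    have hset : valueSet v = {l | Odd l ∨ ∃ q o : ℕ, 1 ≤ q ∧ q ≤ trailingZeros v ∧ Odd o ∧
      o < 2 ^ (v.length - trailingZeros v) ∧ l = 2 ^ q * o} := by
      unfold valueSet; rw [if_pos ht]
    rw [hset]
    ext x
    constructor
    · rintro ⟨d, hd, rfl⟩
      obtain ⟨l, hl⟩ := nz_exists hk hV hV' hd
      refine ⟨l, ?_, A_eq hv hl⟩
      exact nz_upper hk hV hV' hVi hVo hd hl
    · rintro ⟨l, hl, rfl⟩
      rcases hl with hl | ⟨q, o, hq, hqi, ho, hok, rfl⟩
      · obtain ⟨d, hd, hA⟩ := nz_odd hk hV hV' hl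
        exact ⟨d, hd, A_eq hv hA⟩
      · obtain ⟨d, hd, hA⟩ := nz_even hk hV hV' hVi hVo hq hqi ho hok
        exact ⟨d, hd, A_eq hv hA⟩
  · have hV0 : lv v.reverse = 0 := lv_zero (by simpa using ht)
    have hset : valueSet v = {l | (Odd l ∧ l < 2 ^ v.length) ∨
        ∃ q : ℕ, 1 ≤ q ∧ q ≤ v.length ∧ l = 2 ^ q} := by
      unfold valueSet; rw [if_neg ht]
    rw [hset]
    ext x
    constructor
    · rintro ⟨d, hd, rfl⟩
      obtain ⟨l, _, hl⟩ := z_exists hk hd
      refine ⟨l, z_upper hk hd hl, A_eq hv (by rw [hV0]; exact hl)⟩
    · rintro ⟨l, hl, rfl⟩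
      rcases hl with ⟨hl, hlk⟩ | ⟨q, hq, hqk, rfl⟩
      · obtain ⟨d, hd, hA⟩ := z_odd hk hl hlk
        exact ⟨d, hd, A_eq hv (by rw [hV0]; exact hA)⟩
      · obtain ⟨d, hd, hA⟩ := z_even hk hq hqk
        exact ⟨d, hd, A_eq hv (by rw [hV0]; exact hA)⟩

end Pool.Agent.Results.MP_956764_co.ValueSetAtZero
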